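import Mathlib
import Pool.Agent.H925R3.DC.Stubs

set_option autoImplicit false

namespace Pool.Agent.H237R2.DC_LSQ

open Finset Pool.Agent.H925R3.DC

open scoped Classical in
/-- the sign of `x`: `1` for squares, `-1` for nonsquares -/
noncomputable def sg {p : ℕ} (x : ZMod p) : ℝ := if IsSquare x then 1 else -1

theorem sg_sq {p : ℕ} (x : ZMod p) : sg x ^ 2 = 1 := by
  unfold sg
  split_ifs <;> norm_num

theorem sum_sg {p : ℕ} [Fact p.Prime] (hp : 2 < p) : ∑ x : ZMod p, sg x = 1 := by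
  have h1 : ∀ x : ZMod p, sg x = ((quadraticChar (ZMod p) x : ℤ) : ℝ) + if x = 0 then 1 else 0 := by
    intro x
    unfold sg
    by_cases h0 : x = 0
    · subst h0
      simp
    · rw [if_neg h0, add_zero]
      by_cases h2 : IsSquare x
      · rw [if_pos h2, (quadraticChar_one_iff_isSquare h0).2 h2]
        norm_num
      · rw [if_neg h2, quadraticChar_neg_one_iff_not_isSquare.2 h2]
        norm_num
  have h2 : ringChar (ZMod p) ≠ 2 := by
    rw [ZMod.ringChar_zmod_n]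
    omega
  have h3 := quadraticChar_sum_zero h2
  rw [Finset.sum_congr rfl fun x _ => h1 x, Finset.sum_add_distrib, ← Int.cast_sum, h3]
  simp

theorem sum_lin {p : ℕ} [Fact p.Prime] (α β : ℤ) (hα : ¬ (p : ℤ) ∣ α) (f : ZMod p → ℝ) :
    ∑ t ∈ range p, f (((α * (t : ℕ) + β : ℤ)) : ZMod p) = ∑ x : ZMod p, f x := by
  have hinj : Set.InjOn (fun t : ℕ => (((α * (t : ℕ) + β : ℤ)) : ZMod p)) (range p : Set ℕ) := by
    intro t ht t' ht' h
    simp only [Finset.coe_range, Set.mem_Iio] at ht ht'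
    have h1 : (((α * (t : ℕ) + β : ℤ)) : ZMod p) = (((α * (t' : ℕ) + β : ℤ)) : ZMod p) := h
    rw [ZMod.intCast_eq_intCast_iff_dvd_sub] at h1
    have h2 : (α * (t' : ℕ) + β) - (α * (t : ℕ) + β) = α * ((t' : ℤ) - t) := by ring
    rw [h2] at h1
    have hp : Prime (p : ℤ) := Nat.prime_iff_prime_int.1 Fact.out
    rcases hp.dvd_or_dvd h1 with h3 | h3
    · exact absurd h3 hα
    · have h4 := Int.eq_zero_of_abs_lt_dvd h3 (by rw [abs_lt]; constructor <;> omega)
      omega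
  rw [← Finset.sum_image (g := fun t : ℕ => (((α * (t : ℕ) + β : ℤ)) : ZMod p))
    (f := f) (s := range p) hinj]
  congr 1
  apply Finset.eq_univ_of_card
  rw [Finset.card_image_of_injOn hinj, Finset.card_range, ZMod.card]

theorem lsq (h : LSF) : LSQ := by
  classical
  intro S k X L α β hS
  set B : Finset ℕ := (Icc 1 L).filter
    (fun n => ∀ p ∈ S, IsSquare ((α p * n + β p : ℤ) : ZMod p)) with hB
  have hcard : Nat.card {n : ℕ // n ∈ Icc 1 L ∧
      ∀ p ∈ S, IsSquare ((α p * n + β p : ℤ) : ZMod p)} = B.card :=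
    Nat.subtype_card B (by intro n; rw [hB, Finset.mem_filter])
  rw [hcard]
  set g : ℕ → ℤ → ℝ := fun p n => sg ((α p * n + β p : ℤ) : ZMod p) - 1 / p with hg
  have hgB : ∀ n ∈ B, ∀ p ∈ S, 1 / 2 ≤ g p n := by
    intro n hn p hp
    have h1 := (Finset.mem_filter.1 hn).2 p hp
    have h2 : (3:ℝ) ≤ p := by exact_mod_cast (hS p hp).2.1
    simp only [hg, sg, if_pos h1]
    have h3 : (1:ℝ) / p ≤ 1 / 3 := one_div_le_one_div_of_le (by norm_num) h2
    linarith
  have hper : ∀ p ∈ S, ∀ n n' : ℤ, (p : ℤ) ∣ n - n' → g p n = g p n' := by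
    intro p _ n n' hd
    have h1 : ((α p * n + β p : ℤ) : ZMod p) = ((α p * n' + β p : ℤ) : ZMod p) := by
      rw [eq_comm, ZMod.intCast_eq_intCast_iff_dvd_sub]
      have : α p * n + β p - (α p * n' + β p) = α p * (n - n') := by ring
      rw [this]
      exact Dvd.dvd.mul_left hd _
    simp only [hg, h1]
  have hsum0 : ∀ p ∈ S, ∑ t ∈ range p, g p t = 0 := by
    intro p hp
    obtain ⟨hp1, hp2, -, hp4⟩ := hS p hp
    have : Fact p.Prime := ⟨hp1⟩
    have h1 := sum_lin (α p) (β p) hp4 (fun x => sg x - 1 / p)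
    have hp0 : (p : ℝ) ≠ 0 := by exact_mod_cast hp1.ne_zero
    rw [Finset.sum_sub_distrib (s := (Finset.univ : Finset (ZMod p))), sum_sg hp2,
      Finset.sum_const, Finset.card_univ, ZMod.card, nsmul_eq_mul] at h1
    have h2 : ∑ t ∈ range p, g p t =
      ∑ t ∈ range p, (sg (((α p * (t : ℕ) + β p : ℤ)) : ZMod p) - 1 / (p:ℝ)) := rfl
    rw [h2, h1]
    field_simp
    ring
  have hsum2 : ∀ p ∈ S, ∑ t ∈ range p, g p t ^ 2 ≤ p := by
    intro p hp
    obtain ⟨hp1, hp2, -, hp4⟩ := hS p hp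
    have : Fact p.Prime := ⟨hp1⟩
    have h1 := sum_lin (α p) (β p) hp4 (fun x => (sg x - 1 / p) ^ 2)
    have hp0 : (0 : ℝ) < p := by exact_mod_cast hp1.pos
    have h2 : ∑ t ∈ range p, g p t ^ 2 =
      ∑ t ∈ range p, (sg (((α p * (t : ℕ) + β p : ℤ)) : ZMod p) - 1 / (p:ℝ)) ^ 2 := rfl
    have h3 : ∀ x : ZMod p, (sg x - 1 / (p:ℝ)) ^ 2 = (1 + 1 / (p:ℝ) ^ 2) - 2 / p * sg x := by
      intro x
      have := sg_sq x
      have e : (sg x - 1 / (p:ℝ)) ^ 2 = sg x ^ 2 + 1 / (p:ℝ) ^ 2 - 2 / p * sg x := by ring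
      rw [e, this]
    rw [h2, h1, Finset.sum_congr rfl fun x _ => h3 x, Finset.sum_sub_distrib, ← Finset.mul_sum,
      sum_sg hp2, Finset.sum_const, Finset.card_univ, ZMod.card, nsmul_eq_mul]
    have h4 : (p:ℝ) * (1 + 1 / (p:ℝ) ^ 2) - 2 / p * 1 = p - 1 / p := by
      field_simp
      ring
    rw [h4]
    have : 0 ≤ 1 / (p:ℝ) := by positivity
    linarith
  -- the sum for one set of primes
  set F : ℕ → ℝ := fun f => ∑ a ∈ (range f).filter (fun a => a.Coprime f),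
      ‖∑ n ∈ Icc 1 L, (if n ∈ B then (1:ℂ) else 0) *
        Pool.Agent.Helper112.ee (n * a / (f : ℝ))‖ ^ 2 with hF
  have hF0 : ∀ f, 0 ≤ F f := fun f => Finset.sum_nonneg fun a _ => by positivity
  have hone : ∀ K ∈ powersetCard k S, (B.card : ℝ) ^ 2 / 4 ^ k ≤ F (∏ p ∈ K, p) := by
    intro K hK
    obtain ⟨hKS, hKc⟩ := Finset.mem_powersetCard.1 hK
    have h1 := h K g (fun p hp => (hS p (hKS hp)).1) (fun p hp => hper p (hKS hp))
      (fun p hp => hsum0 p (hKS hp)) (fun p hp => hsum2 p (hKS hp)) B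
    have h2 : (B.card : ℝ) * (1 / 2) ^ k ≤ ∑ n ∈ B, ∏ p ∈ K, g p n := by
      rw [← nsmul_eq_mul, ← Finset.sum_const]
      refine Finset.sum_le_sum fun n hn => ?_
      rw [← hKc, ← Finset.prod_const]
      exact Finset.prod_le_prod (fun _ _ => by norm_num) fun p hp => hgB n hn p (hKS hp)
    have h3 : ((B.card : ℝ) * (1 / 2) ^ k) ^ 2 ≤ (∑ n ∈ B, ∏ p ∈ K, g p n) ^ 2 :=
      pow_le_pow_left₀ (by positivity) h2 2
    have h4 : ((B.card : ℝ) * (1 / 2) ^ k) ^ 2 = (B.card : ℝ) ^ 2 / 4 ^ k := by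
      rw [mul_pow, ← pow_mul, mul_comm k 2, pow_mul,
        show ((1:ℝ) / 2) ^ 2 = 1 / 4 from by norm_num, div_pow, one_pow, mul_one_div]
    rw [← h4]
    refine h3.trans (h1.trans (le_of_eq ?_))
    simp only [hF]
    refine Finset.sum_congr rfl fun a _ => ?_
    congr 2
    have hBs : B ⊆ Icc 1 L := Finset.filter_subset _ _
    rw [← Finset.sum_subset hBs]
    · refine Finset.sum_congr rfl fun n hn => ?_
      rw [if_pos hn, one_mul]
    · intro n _ hn
      rw [if_neg hn, zero_mul]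
  -- the sum over the sets of primes
  have hinj : Set.InjOn (fun K : Finset ℕ => ∏ p ∈ K, p) (powersetCard k S : Set (Finset ℕ)) := by
    intro K hK K' hK' he
    have h1 := (Finset.mem_powersetCard.1 (Finset.mem_coe.1 hK)).1
    have h2 := (Finset.mem_powersetCard.1 (Finset.mem_coe.1 hK')).1
    have h3 := Nat.primeFactors_prod (s := K) fun p hp => (hS p (h1 hp)).1
    have h4 := Nat.primeFactors_prod (s := K') fun p hp => (hS p (h2 hp)).1
    have he' : ∏ p ∈ K, p = ∏ p ∈ K', p := he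
    rw [← h3, he', h4]
  have hsub : (powersetCard k S).image (fun K : Finset ℕ => ∏ p ∈ K, p) ⊆ Icc 1 (X ^ k) := by
    intro m hm
    obtain ⟨K, hK, rfl⟩ := Finset.mem_image.1 hm
    obtain ⟨hKS, hKc⟩ := Finset.mem_powersetCard.1 hK
    rw [Finset.mem_Icc]
    constructor
    · exact Nat.one_le_iff_ne_zero.2 (Finset.prod_ne_zero_iff.2 fun p hp => (hS p (hKS hp)).1.ne_zero)
    · rw [← hKc]
      exact Finset.prod_le_pow_card K _ X fun p hp => (hS p (hKS hp)).2.2.1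
  have hls := Pool.Agent.Helper112.additive_large_sieve L (X ^ k) (fun n => if n ∈ B then 1 else 0)
  have hB2 : ∑ n ∈ Icc 1 L, ‖(if n ∈ B then (1:ℂ) else 0)‖ ^ 2 = B.card := by
    have hBs : B ⊆ Icc 1 L := Finset.filter_subset _ _
    rw [← Finset.sum_subset hBs]
    · rw [Finset.sum_congr rfl (g := fun _ => (1:ℝ))]
      · simp
      · intro n hn
        rw [if_pos hn]
        simp
    · intro n _ hn
      rw [if_neg hn]
      simp
  rw [hB2] at hls
  have hall : (S.card.choose k : ℝ) * ((B.card : ℝ) ^ 2 / 4 ^ k) ≤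
      6 * (L + ((X ^ k : ℕ) : ℝ) ^ 2) * B.card := by
    calc (S.card.choose k : ℝ) * ((B.card : ℝ) ^ 2 / 4 ^ k)
        = ∑ _K ∈ powersetCard k S, ((B.card : ℝ) ^ 2 / 4 ^ k) := by
          rw [Finset.sum_const, Finset.card_powersetCard, nsmul_eq_mul]
      _ ≤ ∑ K ∈ powersetCard k S, F (∏ p ∈ K, p) := Finset.sum_le_sum hone
      _ = ∑ m ∈ (powersetCard k S).image (fun K : Finset ℕ => ∏ p ∈ K, p), F m :=
          (Finset.sum_image hinj).symm
      _ ≤ ∑ m ∈ Icc 1 (X ^ k), F m :=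
          Finset.sum_le_sum_of_subset_of_nonneg hsub fun m _ _ => hF0 m
      _ ≤ _ := hls
  rcases Nat.eq_zero_or_pos B.card with h0 | h0
  · rw [h0]
    simp only [Nat.cast_zero, zero_mul]
    positivity
  · have hBpos : (0:ℝ) < B.card := by exact_mod_cast h0
    have h4k : (0:ℝ) < 4 ^ k := by positivity
    have h5 : (S.card.choose k : ℝ) * (B.card : ℝ) ≤ 6 * (L + ((X ^ k : ℕ) : ℝ) ^ 2) * 4 ^ k := by
      have h6 : (S.card.choose k : ℝ) * ((B.card : ℝ) ^ 2 / 4 ^ k) =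
        ((S.card.choose k : ℝ) * B.card / 4 ^ k) * B.card := by ring
      rw [h6] at hall
      have h7 := le_of_mul_le_mul_right hall hBpos
      rwa [div_le_iff₀ h4k] at h7
    have h8 : ((X ^ k : ℕ) : ℝ) ^ 2 = (X : ℝ) ^ (2 * k) := by
      push_cast
      rw [← pow_mul, mul_comm]
    rw [h8] at h5
    calc (B.card : ℝ) * (S.card.choose k : ℝ) = (S.card.choose k : ℝ) * (B.card : ℝ) := by ring
      _ ≤ _ := h5
      _ = _ := by ring

end Pool.Agent.H237R2.DC_LSQ
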