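import Pool.Agent.H923R2.FP.Stubs

set_option autoImplicit false

namespace Pool.Agent.H923R2.FP.T_SEP

open Pool.Agent.H923R2.FP TopologicalSpace

theorem sep_closure {A : Type} [NormedRing A] {T : Set A} (hT : IsSeparable T) :
    IsSeparable (Submonoid.closure T : Set A) := by
  have h1 : (Submonoid.closure T : Set A) ⊆ ⋃ n : ℕ,
      (fun v : Fin n → A => (List.ofFn v).prod) '' (Set.univ.pi fun _ => T) := by
    intro x hx
    obtain ⟨l, hl, rfl⟩ := Submonoid.exists_list_of_mem_closure hx
    refine Set.mem_iUnion.2 ⟨l.length, l.get, ?_, ?_⟩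
    · intro i _
      exact hl _ (List.get_mem l i)
    · simp
  refine IsSeparable.mono (IsSeparable.iUnion fun n => ?_) h1
  refine IsSeparable.image (IsSeparable.univ_pi fun _ => hT) ?_
  have h2 : (fun v : Fin n → A => (List.ofFn v).prod) =
      fun v => ((List.finRange n).map v).prod := by
    funext v
    rw [List.ofFn_eq_map]
  rw [h2]
  exact continuous_list_prod _ fun i _ => continuous_apply i

theorem t_SEP : S_SEP := by
  intro J _ D _ _ t A _ τ e f h
  have hgen := h.gen
  set S : Set A := (⋃ j, Set.range (e j)) ∪ Set.range f with hS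
  have hc : ∀ (B : Type) [CStarAlgebra B] (g : B →⋆ₐ[ℂ] A), Continuous g := by
    intro B _ g
    refine AddMonoidHomClass.continuous_of_bound g 1 fun x => ?_
    rw [one_mul]
    exact NonUnitalStarAlgHom.norm_apply_le g x
  have hSsep : IsSeparable S := by
    refine IsSeparable.union (IsSeparable.iUnion fun j => ?_) ?_
    · exact isSeparable_range (hc _ (e j))
    · exact isSeparable_range (hc _ f)
  have hT : IsSeparable (S ∪ star S) := by
    refine hSsep.union ?_
    have : star S = star '' S := by
      ext x
      simp
    rw [this]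
    exact hSsep.image continuous_star
  have h1 : IsSeparable (StarAlgebra.adjoin ℂ S : Set A) := by
    have h2 : (StarAlgebra.adjoin ℂ S : Set A) =
        (Submodule.span ℂ (Submonoid.closure (S ∪ star S) : Set A) : Set A) := by
      rw [← Algebra.adjoin_eq_span, ← StarAlgebra.adjoin_toSubalgebra]
      rfl
    rw [h2]
    exact (sep_closure hT).span
  have h3 : IsSeparable (Set.univ : Set A) := by
    have h4 : (Set.univ : Set A) = closure (StarAlgebra.adjoin ℂ S : Set A) := by
      rw [← StarSubalgebra.topologicalClosure_coe, hgen]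
      rfl
    rw [h4]
    exact h1.closure
  exact isSeparable_univ_iff.1 h3

end Pool.Agent.H923R2.FP.T_SEP
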