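import Mathlib

set_option autoImplicit false

namespace Pool.Agent.H237R2.OddBall

open SimpleGraph Finset

variable {V : Type*} {G : SimpleGraph V}

theorem edge_path {u v : V} (q : G.Walk u v) (hq : q.IsPath) (he : s(v, u) ∈ q.edges) :
    q.length = 1 := by
  cases q with
  | nil => simp at he
  | @cons _ x _ h p =>
    rw [Walk.cons_isPath_iff] at hq
    rw [Walk.edges_cons, List.mem_cons] at he
    rcases he with he | he
    · have hx : v = x := by
        rw [Sym2.eq_iff] at he
        rcases he with ⟨h1, h2⟩ | ⟨h1, h2⟩
        · exact absurd h2 h.ne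
        · exact h1
      subst hx
      have hnil : p.Nil := Walk.isPath_iff_nil.1 hq.1
      have : p.length = 0 := Walk.nil_iff_length_eq.1 hnil
      rw [Walk.length_cons, this]
    · exact absurd (p.snd_mem_support_of_mem_edges he) hq.2

theorem path_or_cycle {u v : V} (p : G.Walk u v) :
    (∃ q : G.Walk u v, q.IsPath ∧ q.length % 2 = p.length % 2 ∧ q.length ≤ p.length) ∨
    (∃ x, ∃ c : G.Walk x x, c.IsCycle ∧ Odd c.length ∧ c.length ≤ p.length) := by
  classical
  induction p with
  | nil => exact Or.inl ⟨Walk.nil, Walk.IsPath.nil, rfl, le_rfl⟩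
  | @cons u u' v h p ih =>
    rcases ih with ⟨q, hq, hl, hle⟩ | ⟨x, c, hc, ho, hl⟩
    · by_cases hu : u ∈ q.support
      · have hlen := congrArg Walk.length (q.take_spec hu)
        rw [Walk.length_append] at hlen
        have htp : (q.takeUntil u hu).IsPath := hq.takeUntil hu
        have hdp : (q.dropUntil u hu).IsPath := hq.dropUntil hu
        rcases Nat.mod_two_eq_zero_or_one (q.takeUntil u hu).length with h0 | h1
        · right
          refine ⟨u, Walk.cons h (q.takeUntil u hu), ?_, ?_, ?_⟩
          · rw [Walk.cons_isCycle_iff]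
            refine ⟨htp, fun he => ?_⟩
            have := edge_path _ htp he
            omega
          · rw [Walk.length_cons, Nat.odd_iff]
            omega
          · rw [Walk.length_cons, Walk.length_cons]
            omega
        · left
          refine ⟨q.dropUntil u hu, hdp, ?_, ?_⟩
          · rw [Walk.length_cons]
            omega
          · rw [Walk.length_cons]
            omega
      · left
        refine ⟨Walk.cons h q, ?_, ?_, ?_⟩
        · rw [Walk.cons_isPath_iff]
          exact ⟨hq, hu⟩
        · rw [Walk.length_cons, Walk.length_cons]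
          omega
        · rw [Walk.length_cons, Walk.length_cons]
          omega
    · exact Or.inr ⟨x, c, hc, ho, by rw [Walk.length_cons]; omega⟩

/-- An odd closed walk contains an odd cycle that is at most as long. -/
theorem exists_odd_cycle {v : V} (p : G.Walk v v) (hp : Odd p.length) :
    ∃ x, ∃ c : G.Walk x x, c.IsCycle ∧ Odd c.length ∧ c.length ≤ p.length := by
  rcases path_or_cycle p with ⟨q, hq, hl, hle⟩ | h
  · have hnil : q.Nil := Walk.isPath_iff_nil.1 hq
    have h0 : q.length = 0 := Walk.nil_iff_length_eq.1 hnil
    rw [Nat.odd_iff] at hp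
    omega
  · exact h

section ball

variable [Fintype V] [DecidableEq V]

open Classical in
/-- The ball of radius `i` around `v` inside `U`. -/
noncomputable def ball (G : SimpleGraph V) (U : Finset V) (v : V) : ℕ → Finset V
  | 0 => {v}
  | i + 1 => ball G U v i ∪ U.filter (fun y => ∃ x ∈ ball G U v i, G.Adj x y)

theorem ball_succ (U : Finset V) (v : V) (i : ℕ) (y : V) :
    y ∈ ball G U v (i + 1) ↔ y ∈ ball G U v i ∨ (y ∈ U ∧ ∃ x ∈ ball G U v i, G.Adj x y) := by
  simp [ball]

theorem ball_mono (U : Finset V) (v : V) {i j : ℕ} (h : i ≤ j) :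
    ball G U v i ⊆ ball G U v j := by
  induction j, h using Nat.le_induction with
  | base => exact Subset.refl _
  | succ j _ ih =>
    intro y hy
    rw [ball_succ]
    exact Or.inl (ih hy)

theorem ball_subset (U : Finset V) {v : V} (hv : v ∈ U) (i : ℕ) : ball G U v i ⊆ U := by
  induction i with
  | zero =>
    intro y hy
    simp only [ball, mem_singleton] at hy
    exact hy ▸ hv
  | succ i ih =>
    intro y hy
    rw [ball_succ] at hy
    rcases hy with hy | hy
    · exact ih hy
    · exact hy.1

theorem exists_walk (U : Finset V) (v : V) (i : ℕ) :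
    ∀ y ∈ ball G U v i, (∀ j < i, y ∉ ball G U v j) → ∃ w : G.Walk v y, w.length = i := by
  induction i with
  | zero =>
    intro y hy _
    simp only [ball, mem_singleton] at hy
    subst hy
    exact ⟨Walk.nil, rfl⟩
  | succ i ih =>
    intro y hy hmin
    have hy' := hy
    rw [ball_succ] at hy
    rcases hy with hy | ⟨hyU, x, hx, hxy⟩
    · exact absurd hy (hmin i (Nat.lt_succ_self i))
    · obtain ⟨w, hw⟩ := ih x hx (by
        intro j hj hxj
        apply hmin (j + 1) (by omega)
        rw [ball_succ]
        exact Or.inr ⟨hyU, x, hxj, hxy⟩)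
      refine ⟨w.concat hxy, ?_⟩
      rw [Walk.length_concat, hw]

/-- Edges inside a ball of small radius join vertices whose levels have different parity. -/
theorem level_lemma (U : Finset V) (v : V) (R : ℕ)
    (hG : ∀ x, ∀ w : G.Walk x x, Odd w.length → 2 * R + 1 < w.length) :
    ∃ c : V → Bool, ∀ y ∈ ball G U v R, ∀ z ∈ ball G U v R, y ∈ U → z ∈ U → G.Adj y z →
      c y ≠ c z := by
  classical
  let lev : V → ℕ := fun y => if h : ∃ i, y ∈ ball G U v i then Nat.find h else 0
  have hlev : ∀ y i, y ∈ ball G U v i → y ∈ ball G U v (lev y) ∧ lev y ≤ i ∧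
      ∀ j < lev y, y ∉ ball G U v j := by
    intro y i hy
    have h : ∃ i, y ∈ ball G U v i := ⟨i, hy⟩
    have hl : lev y = Nat.find h := dif_pos h
    rw [hl]
    exact ⟨Nat.find_spec h, Nat.find_min' h hy, fun j hj => Nat.find_min h hj⟩
  refine ⟨fun y => decide (lev y % 2 = 0), ?_⟩
  intro y hy z hz hyU hzU hadj hc
  obtain ⟨hy1, hy2, hy3⟩ := hlev y R hy
  obtain ⟨hz1, hz2, hz3⟩ := hlev z R hz
  have h1 : lev z ≤ lev y + 1 :=
    (hlev z (lev y + 1) (by rw [ball_succ]; exact Or.inr ⟨hzU, y, hy1, hadj⟩)).2.1
  have h2 : lev y ≤ lev z + 1 :=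
    (hlev y (lev z + 1) (by rw [ball_succ]; exact Or.inr ⟨hyU, z, hz1, hadj.symm⟩)).2.1
  have hc' : (lev y % 2 = 0) ↔ (lev z % 2 = 0) := by simpa using hc
  have heq : lev y = lev z := by omega
  obtain ⟨w1, hw1⟩ := exists_walk U v (lev y) y hy1 hy3
  obtain ⟨w2, hw2⟩ := exists_walk U v (lev z) z hz1 hz3
  have h3 := hG v ((w1.concat hadj).append w2.reverse) (by
    rw [Walk.length_append, Walk.length_concat, Walk.length_reverse, hw1, hw2, Nat.odd_iff]
    omega)
  rw [Walk.length_append, Walk.length_concat, Walk.length_reverse, hw1, hw2] at h3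
  omega

theorem grow (U : Finset V) (v : V) (i : ℕ) :
    i + 1 ≤ (ball G U v i).card ∨ ball G U v (i + 1) = ball G U v i := by
  induction i with
  | zero => left; simp [ball]
  | succ i ih =>
    by_cases hst : ball G U v (i + 1) = ball G U v i
    · right
      ext y
      rw [ball_succ, hst, ← ball_succ, hst]
    · left
      rcases ih with ih | ih
      · have : (ball G U v i).card < (ball G U v (i + 1)).card :=
          card_lt_card (lt_of_le_of_ne (ball_mono U v (Nat.le_succ i)) (Ne.symm hst))
        omega
      · exact absurd ih hst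

theorem exists_thin (U : Finset V) (v : V) (r : ℕ) (hr : 1 ≤ r) :
    ∃ j, r ≤ j ∧ j < 2 * r ∧
      ((ball G U v (j + 1)).card - (ball G U v j).card) * r ≤ Fintype.card V := by
  by_contra hcon
  push Not at hcon
  have hstep : ∀ k ≤ r, k * Fintype.card V + r * (ball G U v r).card + k ≤
      r * (ball G U v (r + k)).card := by
    intro k hk
    induction k with
    | zero => simp
    | succ k ih =>
      have h1 := ih (by omega)
      have h2 := hcon (r + k) (by omega) (by omega)
      have h3 : (ball G U v (r + k)).card ≤ (ball G U v (r + k + 1)).card :=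
        card_le_card (ball_mono U v (Nat.le_succ _))
      obtain ⟨a, ha⟩ := Nat.exists_eq_add_of_le h3
      rw [ha, Nat.add_sub_cancel_left] at h2
      have h4 : r * (ball G U v (r + (k + 1))).card = r * (ball G U v (r + k)).card + a * r := by
        rw [← add_assoc, ha]; ring
      rw [h4]
      nlinarith
  have h1 := hstep r le_rfl
  have h2 : (ball G U v (r + r)).card ≤ Fintype.card V := card_le_univ _
  have h3 : r * (ball G U v (r + r)).card ≤ r * Fintype.card V := Nat.mul_le_mul_left r h2
  omega

/-- If every odd closed walk is longer than `4 r`, then few vertices hit all odd cycles. -/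
theorem exists_hitting (r : ℕ) (hr : 1 ≤ r)
    (hG : ∀ x, ∀ w : G.Walk x x, Odd w.length → 4 * r < w.length) (U : Finset V) :
    ∃ X : Finset V, X.card * (r * r) ≤ Fintype.card V * U.card ∧
      ∃ c : V → Bool, ∀ y ∈ U, ∀ z ∈ U, y ∉ X → z ∉ X → G.Adj y z → c y ≠ c z := by
  induction U using Finset.strongInduction with
  | H U ih =>
    rcases U.eq_empty_or_nonempty with hU | ⟨v, hv⟩
    · subst hU
      exact ⟨∅, by simp, fun _ => true, by simp⟩
    · obtain ⟨j, hj1, hj2, hj3⟩ := exists_thin (G := G) U v r hr
      have hsub := ball_subset (G := G) U hv (j + 1)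
      have hvb : v ∈ ball G U v (j + 1) := ball_mono U v (Nat.zero_le _) (by simp [ball])
      obtain ⟨X', hX', c', hc'⟩ := ih (U \ ball G U v (j + 1)) (by
        refine ⟨sdiff_subset, fun h => ?_⟩
        have := h hv
        rw [mem_sdiff] at this
        exact this.2 hvb)
      obtain ⟨c₀, hc₀⟩ := level_lemma (G := G) U v j (fun x w hw => by
        have := hG x w hw
        omega)
      refine ⟨(ball G U v (j + 1) \ ball G U v j) ∪ X', ?_,
        fun y => if y ∈ ball G U v j then c₀ y else c' y, ?_⟩
      · have h1 : ((ball G U v (j + 1) \ ball G U v j) ∪ X').card ≤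
            ((ball G U v (j + 1)).card - (ball G U v j).card) + X'.card := by
          refine (card_union_le _ _).trans ?_
          rw [card_sdiff_of_subset (ball_mono U v (Nat.le_succ j))]
        have h2 : (U \ ball G U v (j + 1)).card = U.card - (ball G U v (j + 1)).card :=
          card_sdiff_of_subset hsub
        rw [h2] at hX'
        have h3 : (ball G U v (j + 1)).card ≤ U.card := card_le_card hsub
        have h4 : ((ball G U v (j + 1)).card - (ball G U v j).card) * (r * r) ≤
            Fintype.card V * (ball G U v (j + 1)).card := by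
          rcases grow (G := G) U v j with h5 | h5
          · have h6 : (ball G U v j).card ≤ (ball G U v (j + 1)).card :=
              card_le_card (ball_mono U v (Nat.le_succ _))
            have h7 : r ≤ (ball G U v (j + 1)).card := by omega
            calc ((ball G U v (j + 1)).card - (ball G U v j).card) * (r * r)
                = (((ball G U v (j + 1)).card - (ball G U v j).card) * r) * r := by ring
              _ ≤ Fintype.card V * (ball G U v (j + 1)).card := Nat.mul_le_mul hj3 h7
          · rw [h5, Nat.sub_self, Nat.zero_mul]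
            exact Nat.zero_le _
        calc ((ball G U v (j + 1) \ ball G U v j) ∪ X').card * (r * r)
            ≤ (((ball G U v (j + 1)).card - (ball G U v j).card) + X'.card) * (r * r) :=
              Nat.mul_le_mul_right _ h1
          _ = ((ball G U v (j + 1)).card - (ball G U v j).card) * (r * r) + X'.card * (r * r) := by
              ring
          _ ≤ Fintype.card V * (ball G U v (j + 1)).card +
              Fintype.card V * (U.card - (ball G U v (j + 1)).card) := Nat.add_le_add h4 hX'
          _ = Fintype.card V * U.card := by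
              rw [← Nat.mul_add, Nat.add_sub_cancel' h3]
      · intro y hyU z hzU hyX hzX hadj
        rw [mem_union, not_or, mem_sdiff, not_and_not_right] at hyX hzX
        by_cases hy : y ∈ ball G U v j
        · have hz1 : z ∈ ball G U v (j + 1) := by
            rw [ball_succ]
            exact Or.inr ⟨hzU, y, hy, hadj⟩
          have hz := hzX.1 hz1
          simp only [hy, hz, if_true]
          exact hc₀ y hy z hz hyU hzU hadj
        · by_cases hz : z ∈ ball G U v j
          · have hy1 : y ∈ ball G U v (j + 1) := by
              rw [ball_succ]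
              exact Or.inr ⟨hyU, z, hz, hadj.symm⟩
            exact absurd (hyX.1 hy1) hy
          · simp only [hy, hz, if_false]
            refine hc' y ?_ z ?_ hyX.2 hzX.2 hadj
            · rw [mem_sdiff]
              exact ⟨hyU, fun h => hy (hyX.1 h)⟩
            · rw [mem_sdiff]
              exact ⟨hzU, fun h => hz (hzX.1 h)⟩

end ball

/-- If `G` has `2 a + p` vertices and independence number at most `a`, then it has an odd cycle of
length at most `4 r` as soon as `(2 a + p) ^ 2 < p r ^ 2`. -/
theorem exists_short_odd_cycle [Fintype V] (a p r : ℕ) (hr : 1 ≤ r)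
    (hV : Fintype.card V = 2 * a + p) (hn : (2 * a + p) * (2 * a + p) < p * (r * r))
    (hind : ∀ s : Finset V, G.IsIndepSet (s : Set V) → s.card ≤ a) :
    ∃ v : V, ∃ w : G.Walk v v, w.IsCycle ∧ Odd w.length ∧ w.length ≤ 4 * r := by
  classical
  by_contra hcon
  push Not at hcon
  have hG : ∀ x, ∀ w : G.Walk x x, Odd w.length → 4 * r < w.length := by
    intro x w hw
    obtain ⟨y, c, hc, ho, hl⟩ := exists_odd_cycle w hw
    have := hcon y c hc ho
    omega
  obtain ⟨X, hX, c, hc⟩ := exists_hitting r hr hG (Finset.univ : Finset V)
  have h1 := hind (univ.filter (fun y => y ∉ X ∧ c y = true)) (by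
    intro y hy z hz _ hadj
    simp only [coe_filter, mem_univ, true_and, Set.mem_setOf_eq] at hy hz
    exact hc y (mem_univ _) z (mem_univ _) hy.1 hz.1 hadj (hy.2.trans hz.2.symm))
  have h2 := hind (univ.filter (fun y => y ∉ X ∧ ¬ c y = true)) (by
    intro y hy z hz _ hadj
    simp only [coe_filter, mem_univ, true_and, Set.mem_setOf_eq] at hy hz
    have hy2 : c y = false := by simpa using hy.2
    have hz2 : c z = false := by simpa using hz.2
    exact hc y (mem_univ _) z (mem_univ _) hy.1 hz.1 hadj (hy2.trans hz2.symm))
  have h3 : (univ.filter (fun y => y ∉ X)).card =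
      (univ.filter (fun y => y ∉ X ∧ c y = true)).card +
      (univ.filter (fun y => y ∉ X ∧ ¬ c y = true)).card := by
    rw [← card_filter_add_card_filter_not (s := univ.filter (fun y => y ∉ X))
      (fun y => c y = true), filter_filter, filter_filter]
  have h4 : (univ.filter (fun y => y ∉ X)).card + X.card = 2 * a + p := by
    rw [← hV, ← card_univ, ← card_filter_add_card_filter_not (s := (univ : Finset V))
      (fun y => y ∉ X)]
    congr 2
    ext y
    simp
  have h5 : p ≤ X.card := by omega
  rw [card_univ, hV] at hX
  have h6 : p * (r * r) ≤ X.card * (r * r) := Nat.mul_le_mul_right _ h5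
  omega

end Pool.Agent.H237R2.OddBall
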